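import Pool.Agent.Helper85.BP.Defs
import Pool.Agent.Helper72.BAM.PC4

/-!
Module R13 of the all-p extension (MP_3dd6d4_an): sharp windows for real exponents.
-/

set_option autoImplicit false

open MeasureTheory Complex FourierTransform Filter Topology
open scoped ENNReal NNReal ComplexConjugate

noncomputable section

namespace Helper85.BP.P

open Helper72.BA Helper85.BP

/-- inversion formula -/
theorem R13_inv {u : ℂ → ℂ} (hu : Integrable u) (huc : Continuous u) (hui : Integrable (𝓕 u))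
    (x : ℂ) : ∫ ξ, ch x ξ * 𝓕 u ξ = u x := by
  have h1 := congrFun (huc.fourierInv_fourier_eq hu hui) x
  rw [Real.fourierInv_eq_fourier_neg, Helper72.BA.P.LEaux.fourier_ch] at h1
  rw [← h1]
  congr 1
  ext ξ
  rw [neg_neg, Helper72.BA.P.LEaux.ch_comm]

theorem R13_ch_meas (x : ℂ) : Measurable (fun ξ : ℂ => ch x ξ) :=
  (Helper72.BA.P.LEaux.continuous_ch.comp (by fun_prop : Continuous (fun ξ : ℂ => (x, ξ)))).measurable

/-- `HasPitt` without the support condition -/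
theorem R13_ext {p A : ℝ} (hp : 2 < p) (hP : HasPitt p A) (ν : Measure ℂ) [IsFiniteMeasure ν]
    (U : ℂ → ℂ → ℂ) (hU : Measurable (Function.uncurry U)) (hb : ∃ C : ℝ, ∀ ξ y, ‖U ξ y‖ ≤ C)
    (hi : ∀ y, Integrable (fun ξ => U ξ y)) (hi2 : ∃ C : ℝ, ∀ y, ∫ ξ, ‖U ξ y‖ ≤ C) :
    ∫⁻ x : ℂ, (uH ν U x) ^ p ≤ ENNReal.ofReal (Real.pi ^ (p - 2) * A ^ p) *
      ∫⁻ ξ : ℂ, ‖ξ‖ₑ ^ (2 * p - 4) * (∫⁻ y, ‖U ξ y‖ₑ ^ 2 ∂ν) ^ (p / 2) := by
  classical
  obtain ⟨C, hC⟩ := hb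
  obtain ⟨D, hD⟩ := hi2
  set S : ℕ → Set ℂ := fun N => {ξ | ((N:ℝ) + 1)⁻¹ ≤ ‖ξ‖ ∧ ‖ξ‖ ≤ (N:ℝ) + 1} with hS
  set UN : ℕ → ℂ → ℂ → ℂ := fun N ξ y => (S N).indicator (fun ξ => U ξ y) ξ with hUN
  have hSm : ∀ N, MeasurableSet (S N) := fun N =>
    (measurableSet_le measurable_const measurable_norm).inter
      (measurableSet_le measurable_norm measurable_const)
  have hUNm : ∀ N, Measurable (Function.uncurry (UN N)) := by
    intro N
    have h : Function.uncurry (UN N) = (Prod.fst ⁻¹' S N).indicator (Function.uncurry U) := by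
      ext ⟨ξ, y⟩
      simp only [hUN, Function.uncurry, Set.indicator, Set.mem_preimage]
    rw [h]
    exact hU.indicator (measurable_fst (hSm N))
  have hle : ∀ N ξ y, ‖UN N ξ y‖ ≤ ‖U ξ y‖ := fun N ξ y => norm_indicator_le_norm_self _ _
  have hint : ∀ N y, Integrable (fun ξ => UN N ξ y) := fun N y => (hi y).indicator (hSm N)
  have hcm : Measurable (Function.uncurry ch) := Helper72.BA.P.LEaux.continuous_ch.measurable
  -- the bound for the truncations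
  have hN : ∀ N, ∫⁻ x : ℂ, (uH ν (UN N) x) ^ p ≤ ENNReal.ofReal (Real.pi ^ (p - 2) * A ^ p) *
      ∫⁻ ξ : ℂ, ‖ξ‖ₑ ^ (2 * p - 4) * (∫⁻ y, ‖U ξ y‖ₑ ^ 2 ∂ν) ^ (p / 2) := by
    intro N
    refine (hP ν inferInstance (UN N) (hUNm N) ⟨C, fun ξ y => (hle N ξ y).trans (hC ξ y)⟩
      ⟨((N:ℝ) + 1)⁻¹, (N:ℝ) + 1, by positivity, ?_⟩).trans ?_
    · intro ξ y h
      refine Set.indicator_of_notMem ?_ _
      rintro ⟨h1, h2⟩
      rcases h with h | h <;> linarith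
    · gcongr with ξ y
      exact enorm_le_iff_norm_le.2 (hle N ξ y)
  -- measurability of the Fourier integrals
  have hgm : ∀ V : ℂ → ℂ → ℂ, Measurable (Function.uncurry V) →
      Measurable (fun q : ℂ × ℂ => ∫ ξ : ℂ, ch q.1 ξ * V ξ q.2) := by
    intro V hV
    have h : StronglyMeasurable (fun r : (ℂ × ℂ) × ℂ => ch r.1.1 r.2 * V r.2 r.1.2) :=
      ((hcm.comp (measurable_fst.fst.prodMk measurable_snd)).mul
        (hV.comp (measurable_snd.prodMk measurable_fst.snd))).stronglyMeasurable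
    exact h.integral_prod_right'.measurable
  have hgm1 : ∀ V : ℂ → ℂ → ℂ, Measurable (Function.uncurry V) → ∀ x : ℂ,
      Measurable (fun y : ℂ => ∫ ξ : ℂ, ch x ξ * V ξ y) := fun V hV x =>
    (hgm V hV).comp (measurable_const.prodMk measurable_id)
  have huHm : ∀ V : ℂ → ℂ → ℂ, Measurable (Function.uncurry V) → Measurable (uH ν V) := by
    intro V hV
    unfold uH
    exact ((hgm V hV).enorm.pow_const 2).lintegral_prod_right'.pow_const _
  -- pointwise convergence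
  have hlim : ∀ x, Tendsto (fun N => (uH ν (UN N) x) ^ p) atTop (𝓝 ((uH ν U x) ^ p)) := by
    intro x
    have h1 : ∀ y, Tendsto (fun N => ∫ ξ : ℂ, ch x ξ * UN N ξ y) atTop
        (𝓝 (∫ ξ : ℂ, ch x ξ * U ξ y)) := by
      intro y
      refine tendsto_integral_of_dominated_convergence (fun ξ => ‖U ξ y‖) ?_ (hi y).norm ?_ ?_
      · intro N
        exact ((R13_ch_meas x).aestronglyMeasurable).mul (hint N y).aestronglyMeasurable
      · intro N
        refine Eventually.of_forall fun ξ => ?_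
        rw [norm_mul, Helper72.BA.P.LEaux.norm_ch, one_mul]
        exact hle N ξ y
      · have h0 : ∀ᵐ ξ : ℂ, ξ ≠ 0 := by
          rw [ae_iff]
          simp
        filter_upwards [h0] with ξ hξ
        refine tendsto_const_nhds.congr' ?_
        have hξ' : 0 < ‖ξ‖ := norm_pos_iff.2 hξ
        obtain ⟨N1, hN1⟩ := exists_nat_ge (‖ξ‖⁻¹)
        obtain ⟨N2, hN2⟩ := exists_nat_ge (‖ξ‖)
        filter_upwards [eventually_ge_atTop N1, eventually_ge_atTop N2] with N h1 h2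
        have h1' : (N1:ℝ) ≤ N := by exact_mod_cast h1
        have h2' : (N2:ℝ) ≤ N := by exact_mod_cast h2
        have hmem : ξ ∈ S N := by
          refine ⟨?_, by linarith⟩
          rw [inv_le_comm₀ (by positivity) hξ']
          linarith
        simp only [hUN, Set.indicator_of_mem hmem]
    have hD0 : ∀ N y, ‖∫ ξ : ℂ, ch x ξ * UN N ξ y‖ ≤ D := by
      intro N y
      refine (norm_integral_le_integral_norm _).trans (le_trans ?_ (hD y))
      refine integral_mono_of_nonneg (Eventually.of_forall fun ξ => norm_nonneg _) (hi y).norm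
        (Eventually.of_forall fun ξ => ?_)
      simp only [norm_mul, Helper72.BA.P.LEaux.norm_ch, one_mul]
      exact hle N ξ y
    have h2 : Tendsto (fun N => ∫⁻ y, ‖∫ ξ : ℂ, ch x ξ * UN N ξ y‖ₑ ^ 2 ∂ν) atTop
        (𝓝 (∫⁻ y, ‖∫ ξ : ℂ, ch x ξ * U ξ y‖ₑ ^ 2 ∂ν)) := by
      refine tendsto_lintegral_of_dominated_convergence (fun _ => ENNReal.ofReal D ^ 2) ?_ ?_ ?_ ?_
      · intro N
        exact (hgm1 (UN N) (hUNm N) x).enorm.pow_const 2
      · intro N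
        refine Eventually.of_forall fun y => ?_
        have h3 : ‖∫ ξ : ℂ, ch x ξ * UN N ξ y‖ₑ ≤ ENNReal.ofReal D := by
          rw [← ofReal_norm]
          exact ENNReal.ofReal_le_ofReal (hD0 N y)
        dsimp only
        gcongr
      · rw [lintegral_const]
        exact ENNReal.mul_ne_top (ENNReal.pow_ne_top ENNReal.ofReal_ne_top) (measure_ne_top _ _)
      · refine Eventually.of_forall fun y => ?_
        exact ((ENNReal.continuous_pow 2).tendsto _).comp ((continuous_enorm.tendsto _).comp (h1 y))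
    unfold uH
    exact (h2.ennrpow_const (1/2 : ℝ)).ennrpow_const p
  calc ∫⁻ x : ℂ, (uH ν U x) ^ p
      = ∫⁻ x : ℂ, liminf (fun N => (uH ν (UN N) x) ^ p) atTop :=
        lintegral_congr fun x => (hlim x).liminf_eq.symm
    _ ≤ liminf (fun N => ∫⁻ x : ℂ, (uH ν (UN N) x) ^ p) atTop :=
        lintegral_liminf_le fun N => (huHm (UN N) (hUNm N)).pow_const p
    _ ≤ liminf (fun _ : ℕ => ENNReal.ofReal (Real.pi ^ (p - 2) * A ^ p) *
      ∫⁻ ξ : ℂ, ‖ξ‖ₑ ^ (2 * p - 4) * (∫⁻ y, ‖U ξ y‖ₑ ^ 2 ∂ν) ^ (p / 2)) atTop :=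
        liminf_le_liminf (Eventually.of_forall hN)
    _ = _ := liminf_const _

/-- steps (2),(3),(4). -/
theorem R13_chain {p A : ℝ} (hp : 2 < p) (hP : HasPitt p A) (θ : SchwartzMap ℂ ℂ)
    (hθs : ∀ ξ, 1 ≤ ‖ξ‖ → θ ξ = 0) (hθ : nrm 2 θ = 1) (κ : ℝ) (hκ : 0 < κ)
    (u : ℂ → ℂ) (hu : Nice u) (huc : Continuous u) (hui : Integrable (𝓕 u)) :
    nrp p u ≤ ENNReal.ofReal (Real.pi ^ (p - 2) * A ^ p) *
      ∫⁻ ξ, ‖ξ‖ₑ ^ (2 * p - 4) *
        (∫⁻ η, ‖((κ : ℝ) : ℂ)⁻¹ * θ ((ξ - η) / κ) * 𝓕 u η‖ₑ ^ 2) ^ (p / 2) := by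
  have hFc : Continuous (𝓕 u) := Helper72.BA.P.fourier_continuous hu.int
  set ν : Measure ℂ := (volume : Measure ℂ).restrict (Metric.closedBall 0 κ) with hν
  have : IsFiniteMeasure ν := by
    rw [hν]
    exact isFiniteMeasure_restrict.2 (isCompact_closedBall 0 κ).measure_lt_top.ne
  set U : ℂ → ℂ → ℂ := fun ξ t => ((κ : ℝ) : ℂ)⁻¹ * θ (t / κ) * 𝓕 u (ξ - t) with hU
  have hUc : Continuous (Function.uncurry U) := by
    have h1 : Continuous (fun q : ℂ × ℂ => θ (q.2 / κ)) := θ.continuous.comp (by fun_prop)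
    have h2 : Continuous (fun q : ℂ × ℂ => 𝓕 u (q.1 - q.2)) := hFc.comp (by fun_prop)
    exact (continuous_const.mul h1).mul h2
  obtain ⟨Cθ, hCθ⟩ : ∃ C : ℝ, ∀ z, ‖θ z‖ ≤ C := by
    obtain ⟨C, hC⟩ := θ.decay 0 0
    exact ⟨C, fun z => by simpa using hC.2 z⟩
  have hCθ0 : 0 ≤ Cθ := (norm_nonneg _).trans (hCθ 0)
  have hFb : ∀ ξ, ‖𝓕 u ξ‖ ≤ ∫ z, ‖u z‖ := fun ξ => by
    rw [Helper72.BA.P.LEaux.fourier_ch]
    refine (norm_integral_le_integral_norm _).trans (le_of_eq ?_)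
    congr 1
    ext z
    rw [norm_mul, Helper72.BA.P.LEaux.norm_ch, one_mul]
  have hint : ∀ t, Integrable (fun ξ => U ξ t) := fun t => (hui.comp_sub_right t).const_mul _
  have key := R13_ext hp hP ν U hUc.measurable
    ⟨κ⁻¹ * Cθ * ∫ z, ‖u z‖, fun ξ t => by
      simp only [hU, norm_mul, norm_inv, Complex.norm_real, Real.norm_of_nonneg hκ.le]
      gcongr
      · exact hCθ _
      · exact hFb _⟩
    hint
    ⟨κ⁻¹ * Cθ * ∫ ξ, ‖𝓕 u ξ‖, fun t => by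
      have h1 : ∫ ξ, ‖U ξ t‖ = κ⁻¹ * ‖θ (t / κ)‖ * ∫ ξ, ‖𝓕 u ξ‖ := by
        rw [← integral_sub_right_eq_self (fun ξ => ‖𝓕 u ξ‖) t, ← integral_const_mul]
        congr 1
        ext ξ
        simp only [hU, norm_mul, norm_inv, Complex.norm_real, Real.norm_of_nonneg hκ.le]
      rw [h1]
      have h2 : 0 ≤ ∫ ξ, ‖𝓕 u ξ‖ := integral_nonneg fun ξ => norm_nonneg _
      gcongr
      exact hCθ _⟩
  have hGd : ∫⁻ t, Helper72.BA.P.Gd θ κ t ∂ν = 1 := by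
    rw [hν, ← lintegral_indicator Metric.isClosed_closedBall.measurableSet,
      ← Helper72.BA.P.lintegral_Gd θ hθ κ hκ]
    refine lintegral_congr fun t => ?_
    by_cases ht : t ∈ Metric.closedBall (0:ℂ) κ
    · rw [Set.indicator_of_mem ht]
    · rw [Set.indicator_of_notMem ht]
      have ht' : κ < ‖t‖ := by simpa using ht
      have h1 : θ (t / κ) = 0 := by
        apply hθs
        rw [norm_div, Complex.norm_real, Real.norm_of_nonneg hκ.le, le_div_iff₀ hκ]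
        linarith
      simp [Helper72.BA.P.Gd, h1]
  have huH : ∀ x, uH ν U x = ‖u x‖ₑ := by
    intro x
    have h1 : ∀ t, ∫ ξ : ℂ, ch x ξ * U ξ t = (((κ : ℝ) : ℂ)⁻¹ * θ (t / κ)) * (ch x t * u x) := by
      intro t
      rw [← R13_inv hu.int huc hui x, ← integral_const_mul, ← integral_const_mul,
        ← integral_add_right_eq_self (fun ξ => ch x ξ * U ξ t) t]
      congr 1
      ext ξ
      simp only [hU, add_sub_cancel_right]
      rw [Helper72.BA.P.LEaux.ch_add]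
      ring
    unfold uH
    have h2 : ∫⁻ t, ‖∫ ξ : ℂ, ch x ξ * U ξ t‖ₑ ^ 2 ∂ν = ‖u x‖ₑ ^ 2 := by
      calc ∫⁻ t, ‖∫ ξ : ℂ, ch x ξ * U ξ t‖ₑ ^ 2 ∂ν
          = ∫⁻ t, Helper72.BA.P.Gd θ κ t * ‖u x‖ₑ ^ 2 ∂ν := by
            refine lintegral_congr fun t => ?_
            rw [h1 t, enorm_mul, mul_pow, Helper72.BA.P.Gd]
            congr 2
            rw [enorm_mul]
            have h3 : ‖ch x t‖ₑ = 1 := by
              rw [← ofReal_norm, Helper72.BA.P.LEaux.norm_ch, ENNReal.ofReal_one]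
            rw [h3, one_mul]
        _ = ‖u x‖ₑ ^ 2 := by
            rw [lintegral_mul_const _ (Helper72.BA.P.meas_Gd θ κ), hGd, one_mul]
    rw [h2, ← ENNReal.rpow_natCast, ← ENNReal.rpow_mul]
    norm_num
  calc nrp p u = ∫⁻ x : ℂ, (uH ν U x) ^ p := by
        unfold nrp
        exact lintegral_congr fun x => by rw [huH]
    _ ≤ _ := key
    _ ≤ _ := by
        gcongr ENNReal.ofReal _ * ?_
        refine lintegral_mono fun ξ => ?_
        refine mul_le_mul' le_rfl (ENNReal.rpow_le_rpow ?_ (by linarith))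
        calc ∫⁻ y, ‖U ξ y‖ₑ ^ 2 ∂ν ≤ ∫⁻ y, ‖U ξ y‖ₑ ^ 2 := by
              rw [hν]
              exact setLIntegral_le_lintegral _ _
          _ = ∫⁻ η, ‖U ξ (ξ - η)‖ₑ ^ 2 :=
              (lintegral_sub_left_eq_self (μ := volume) (fun y => ‖U ξ y‖ₑ ^ 2) ξ).symm
          _ = ∫⁻ η, ‖((κ : ℝ) : ℂ)⁻¹ * θ ((ξ - η) / κ) * 𝓕 u η‖ₑ ^ 2 := by
              refine lintegral_congr fun η => ?_
              simp only [hU, sub_sub_cancel]

/-- exact window identity, for a real exponent. -/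
theorem R13_window (p : ℝ) (hp : 0 ≤ p) (φ : SchwartzMap ℂ ℂ) (r : ℝ) (hr : 0 < r) {g : ℂ → ℂ}
    (hg : Measurable g) :
    nrp p φ * nrp p g = ∫⁻ z₀ : ℂ, ENNReal.ofReal ((r ^ 2)⁻¹) *
      nrp p (Helper72.BA.P.wu φ r g z₀) := by
  unfold nrp
  have hφm : Measurable (fun z : ℂ => ‖φ z‖ₑ ^ p) := by
    have := φ.continuous.measurable
    fun_prop
  rw [lintegral_const_mul']
  swap
  · exact ENNReal.ofReal_ne_top
  rw [lintegral_lintegral_swap]
  swap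
  · exact ((Helper72.BA.P.meas_wu φ r hg).enorm.pow_const p).aemeasurable
  have h1 : ∀ z : ℂ, ∫⁻ z₀ : ℂ, ‖Helper72.BA.P.wu φ r g z₀ z‖ₑ ^ p
      = ‖g z‖ₑ ^ p * (ENNReal.ofReal (r ^ 2) * ∫⁻ w, ‖φ w‖ₑ ^ p) := by
    intro z
    rw [← Helper72.BA.P.lintegral_scale_sub (fun w => ‖φ w‖ₑ ^ p) hφm r hr z]
    rw [← lintegral_const_mul']
    · refine lintegral_congr fun z₀ => ?_
      simp only [Helper72.BA.P.wu, enorm_mul, ENNReal.mul_rpow_of_nonneg _ _ hp]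
      ring
    · exact ENNReal.rpow_ne_top_of_nonneg hp enorm_ne_top
  simp only [h1]
  rw [lintegral_mul_const _ (hg.enorm.pow_const p)]
  · have : ENNReal.ofReal ((r ^ 2)⁻¹) * ENNReal.ofReal (r ^ 2) = 1 := by
      rw [← ENNReal.ofReal_mul (by positivity), inv_mul_cancel₀ (by positivity), ENNReal.ofReal_one]
    calc (∫⁻ z, ‖φ z‖ₑ ^ p) * ∫⁻ z, ‖g z‖ₑ ^ p
        = (ENNReal.ofReal ((r ^ 2)⁻¹) * ENNReal.ofReal (r ^ 2)) *
            ((∫⁻ z, ‖φ z‖ₑ ^ p) * ∫⁻ z, ‖g z‖ₑ ^ p) := by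
          rw [this, one_mul]
      _ = _ := by ring

theorem R13_pow (p : ℝ) (hp : 2 < p) (ξ : ℂ) (v : ℝ≥0∞) :
    ‖ξ‖ₑ ^ (2 * p - 4) * v ^ (p / 2) ≤
      ENNReal.ofReal ((‖ξ‖ ^ 4)⁻¹) * (ENNReal.ofReal (‖ξ‖ ^ 4) * v) ^ (p / 2) := by
  rcases eq_or_ne ξ 0 with h0 | h0
  · subst h0
    have : (0:ℝ) < 2 * p - 4 := by linarith
    simp [ENNReal.zero_rpow_of_pos this]
  · have h' : (0:ℝ) < ‖ξ‖ := norm_pos_iff.2 h0
    rw [ENNReal.mul_rpow_of_nonneg _ _ (by linarith), ← mul_assoc]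
    gcongr ?_ * _
    rw [← ofReal_norm, ENNReal.ofReal_rpow_of_pos h', ENNReal.ofReal_rpow_of_pos (by positivity),
      ← ENNReal.ofReal_mul (by positivity)]
    apply le_of_eq
    congr 1
    rw [← Real.rpow_natCast, ← Real.rpow_mul h'.le, ← Real.rpow_neg h'.le, ← Real.rpow_add h']
    congr 1
    push_cast
    ring

/-- lower bound: the windowed functional dominates the norm -/
theorem R13_lower {p A : ℝ} (hp : 2 < p) (hP : HasPitt p A) (φ θ : SchwartzMap ℂ ℂ)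
    (hφ : ∀ z, ‖φ z‖ ≤ 1) (hθs : ∀ ξ, 1 ≤ ‖ξ‖ → θ ξ = 0) (hθ : nrm 2 θ = 1)
    (n : ℕ) (W : Finset ℤ) (κ r : ℝ) (hκ : 0 < κ) (hr : 0 < r) {f : ℂ → ℂ} (hf : Nice f) :
    nrp p φ * nrp p (gW n W f) ≤
      ENNReal.ofReal (Real.pi ^ (p - 2) * A ^ p) *
      ∫⁻ x, (∫⁻ η, ‖Helper72.BA.P.SS φ θ n W κ r f x η‖ₑ ^ 2) ^ (p / 2)
        ∂(Helper72.BA.P.mu r) := by
  have hmeas : Measurable (fun x : ℂ × ℂ =>
      (∫⁻ η, ‖Helper72.BA.P.SS φ θ n W κ r f x η‖ₑ ^ 2) ^ (p / 2)) :=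
    (Helper72.BA.P.meas_SS_sq φ θ n W κ r hf).pow_const _
  have hgm := (Helper72.BA.P.nice_gW n W hf).meas
  rw [Helper72.BA.P.lintegral_mu r _ hmeas, R13_window p (by linarith) φ r hr hgm,
    ← lintegral_const_mul' _ _ ENNReal.ofReal_ne_top]
  refine lintegral_mono fun z₀ => ?_
  have hu := Helper72.BA.P.nice_wu φ hφ r (Helper72.BA.P.nice_gW n W hf) z₀
  have huc := Helper72.BA.P.continuous_wu φ r (Helper72.BA.P.continuous_gW n W hf) z₀
  have hui := Helper72.BA.P.integrable_fourier_wu φ r hr (Helper72.BA.P.nice_gW n W hf)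
    (Helper72.BA.P.continuous_gW n W hf) (Helper72.BA.P.integrable_fourier_gW n W hf) z₀
  have h := R13_chain hp hP θ hθs hθ κ hκ _ hu huc hui
  calc ENNReal.ofReal ((r ^ 2)⁻¹) * nrp p (Helper72.BA.P.wu φ r (gW n W f) z₀)
      ≤ ENNReal.ofReal ((r ^ 2)⁻¹) * (ENNReal.ofReal (Real.pi ^ (p - 2) * A ^ p) *
      ∫⁻ ξ, ‖ξ‖ₑ ^ (2 * p - 4) *
        (∫⁻ η, ‖((κ : ℝ) : ℂ)⁻¹ * θ ((ξ - η) / κ) *
          𝓕 (Helper72.BA.P.wu φ r (gW n W f) z₀) η‖ₑ ^ 2) ^ (p / 2)) := by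
        gcongr
    _ = ENNReal.ofReal (Real.pi ^ (p - 2) * A ^ p) * (ENNReal.ofReal ((r ^ 2)⁻¹) *
      ∫⁻ ξ, ‖ξ‖ₑ ^ (2 * p - 4) *
        (∫⁻ η, ‖((κ : ℝ) : ℂ)⁻¹ * θ ((ξ - η) / κ) *
          𝓕 (Helper72.BA.P.wu φ r (gW n W f) z₀) η‖ₑ ^ 2) ^ (p / 2)) := by
        ring
    _ ≤ _ := by
        gcongr ENNReal.ofReal _ * (ENNReal.ofReal _ * ?_)
        refine lintegral_mono fun ξ => ?_
        rw [Helper72.BA.P.SS_sq]
        exact R13_pow p hp ξ _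

/-- the combination of RT2 with the two window estimates -/
theorem R13_core {p A : ℝ} (hp : 2 < p) (hP : HasPitt p A) (φ θ : SchwartzMap ℂ ℂ)
    (hφ : ∀ z, ‖φ z‖ ≤ 1) (hφ2 : nrm 2 φ ≠ ∞) (hθs : ∀ ξ, 1 ≤ ‖ξ‖ → θ ξ = 0) (hθ : nrm 2 θ = 1)
    (n : ℕ) (I : Finset ℕ) (W : ℕ → Finset ℤ)
    (hW : ∀ i ∈ I, ∀ j ∈ I, i ≠ j → Disjoint (W i) (W j)) (κ r : ℕ → ℝ) (hκ : ∀ l, 0 < κ l)
    (hr : ∀ l, 0 < r l) (D : ℝ) (hD : 0 ≤ D)
    (hinf : ∀ l ∈ I, ∀ f, Nice f → (∀ z, ‖f z‖ ≤ 1) → ∀ z₀ ξ : ℂ,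
      ENNReal.ofReal (‖ξ‖ ^ 4) * ∫⁻ η, ‖((κ l : ℝ) : ℂ)⁻¹ * θ ((ξ - η) / (κ l : ℝ)) *
        𝓕 (Helper72.BA.P.wu φ (r l) (gW n (W l) f) z₀) η‖ₑ ^ 2 ≤ ENNReal.ofReal (D ^ 2))
    {f : ℂ → ℂ} (hf : Nice f) :
    nrp p φ * ∑ l ∈ I, nrp p (gW n (W l) f) ≤
      ENNReal.ofReal (Real.pi ^ (p - 2) * A ^ p) *
        (nrm 2 φ * ENNReal.ofReal (D ^ (p - 2)) * nrp p f) := by
  have key := Helper72.BA.P.RT2 I (fun l => Helper72.BA.P.mu (r l)) (volume : Measure ℂ)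
    (fun l => Helper72.BA.P.SS φ θ n (W l) (κ l) (r l))
    (fun l f hf => Helper72.BA.P.SS_meas φ θ n (W l) (κ l) (r l) hf)
    (fun l f g hf hg => Helper72.BA.P.SS_add φ θ hφ n (W l) (κ l) (r l) hf hg)
    (fun l c f _ => Helper72.BA.P.SS_smul φ θ n (W l) (κ l) (r l) c f)
    (nrm 2 φ).toNNReal (Real.toNNReal D)
    (by
      intro f hf
      rw [ENNReal.coe_toNNReal hφ2]
      calc ∑ l ∈ I, ∫⁻ x, (∫⁻ y, ‖Helper72.BA.P.SS φ θ n (W l) (κ l) (r l) f x y‖ₑ ^ 2)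
              ∂(Helper72.BA.P.mu (r l))
          ≤ ∑ l ∈ I, nrm 2 φ * nrm 2 (gW n (W l) f) :=
            Finset.sum_le_sum fun l _ =>
              Helper72.BA.P.SS_L2 φ θ hφ hθ n (W l) (κ l) (r l) (hκ l) (hr l) hf
        _ = nrm 2 φ * ∑ l ∈ I, nrm 2 (gW n (W l) f) := by rw [Finset.mul_sum]
        _ ≤ nrm 2 φ * ∫⁻ z, ‖f z‖ₑ ^ 2 := by
            gcongr
            exact Helper72.BA.P.sum_nrm_two_windows n I W hW f hf)
    (by
      intro l hl f hf hf1 x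
      obtain ⟨z₀, ξ⟩ := x
      rw [Helper72.BA.P.SS_sq]
      refine (hinf l hl f hf hf1 z₀ ξ).trans (le_of_eq ?_)
      rw [ENNReal.ofReal_pow hD]
      rfl)
    p hp.le f hf
  have hlow : nrp p φ * ∑ l ∈ I, nrp p (gW n (W l) f) ≤
      ENNReal.ofReal (Real.pi ^ (p - 2) * A ^ p) *
      ∑ l ∈ I, ∫⁻ x, (∫⁻ η, ‖Helper72.BA.P.SS φ θ n (W l) (κ l) (r l) f x η‖ₑ ^ 2) ^ (p / 2)
        ∂(Helper72.BA.P.mu (r l)) := by
    rw [Finset.mul_sum, Finset.mul_sum]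
    exact Finset.sum_le_sum fun l _ =>
      R13_lower hp hP φ θ hφ hθs hθ n (W l) (κ l) (r l) (hκ l) (hr l) hf
  refine hlow.trans ?_
  gcongr
  refine key.trans (le_of_eq ?_)
  rw [ENNReal.coe_toNNReal hφ2]
  congr 1
  congr 1
  rw [← ENNReal.ofReal_rpow_of_nonneg hD (by linarith)]
  rfl

theorem R13_nrp_zero (p : ℝ) (hp : 0 < p) : nrp p (fun _ => (0:ℂ)) = 0 := by
  simp [nrp, hp]

/-! ## MODULE R13 : sharp windows -/
theorem sharp_windows_real (p : ℝ) (hp : 2 < p) (A : ℝ) (hA : 0 < A) (hP : HasPitt p A) (ε : ℝ)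
    (hε : 0 < ε) (B : ℕ) : ∃ n0 : ℕ, ∀ n : ℕ, n0 ≤ n →
    ∀ (N : ℕ) (a b : ℕ → ℤ), (∀ l, a l ≤ b l ∧ b l ≤ a l + B ∧ b l ≤ a (l + 1)) →
    ∀ f : ℂ → ℂ, Nice f →
    ∑ l ∈ Finset.range N, nrp p (gW n (Finset.Ico (a l) (b l)) f) ≤
      ENNReal.ofReal ((1 + ε) * A ^ p * (n:ℝ) ^ (p - 2)) * nrp p f := by
  -- choice of ε'
  set ε' : ℝ := (1 + ε) ^ (1 / p) - 1 with hε'def
  have hp0 : 0 < p := by linarith
  have hε' : 0 < ε' := by
    have : (1:ℝ) < (1 + ε) ^ (1 / p) := Real.one_lt_rpow (by linarith) (by positivity)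
    linarith
  have hpow : (1 + ε') ^ p = 1 + ε := by
    have e1 : 1 + ε' = (1 + ε) ^ (1 / p) := by rw [hε'def]; ring
    rw [e1, ← Real.rpow_mul (by linarith), one_div_mul_cancel hp0.ne', Real.rpow_one]
  have hpow1 : (1 + ε') ^ (p - 1) ≤ 1 + ε := by
    rw [← hpow]
    exact Real.rpow_le_rpow_of_exponent_le (by linarith) (by linarith)
  -- the window
  obtain ⟨k, hk⟩ := exists_nat_ge p
  have hk1 : 1 ≤ k := by
    have : (1:ℝ) ≤ k := by linarith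
    exact_mod_cast this
  obtain ⟨φ, ρ₀, hρ₀, hφ, hφs, hφ0, hφt, hφ2⟩ := Helper72.BA.P.window_function k hk1 ε' hε'
  obtain ⟨θ, hθs, hθ1⟩ := Helper72.BA.P.theta_exists
  have hφe : ∀ z, ‖φ z‖ₑ ≤ 1 := fun z => by
    rw [← ofReal_norm, ← ENNReal.ofReal_one]
    exact ENNReal.ofReal_le_ofReal (hφ z)
  have hk2p : nrm (2 * k) φ ≤ nrp p φ := by
    unfold nrm nrp
    refine lintegral_mono fun z => ?_
    dsimp only
    rw [← ENNReal.rpow_natCast]
    refine ENNReal.rpow_le_rpow_of_exponent_ge (hφe z) ?_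
    push_cast
    have : (0:ℝ) ≤ k := Nat.cast_nonneg k
    linarith
  have hp22 : nrp p φ ≤ nrm 2 φ := by
    unfold nrm nrp
    refine lintegral_mono fun z => ?_
    dsimp only
    rw [← ENNReal.rpow_natCast]
    refine ENNReal.rpow_le_rpow_of_exponent_ge (hφe z) ?_
    push_cast
    linarith
  have hφ2' : nrm 2 φ ≤ ENNReal.ofReal (1 + ε') * nrp p φ := hφ2.trans (by gcongr)
  have hφ0' : nrp p φ ≠ 0 := (hφ0.trans_le hk2p).ne'
  have hφ2t : nrm 2 φ ≠ ∞ := by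
    refine ne_top_of_le_ne_top ?_ hφ2
    exact ENNReal.mul_ne_top ENNReal.ofReal_ne_top hφt.ne
  have hφt' : nrp p φ ≠ ∞ := ne_top_of_le_ne_top hφ2t hp22
  have H : ∀ b : ℕ, ∃ κ r : ℝ, ∃ n0 : ℕ, 0 < κ ∧ 0 < r ∧ (1 ≤ b → ∀ n : ℕ, n0 ≤ n → ∀ a : ℤ,
      ∀ f : ℂ → ℂ, Nice f → (∀ z, ‖f z‖ ≤ 1) → ∀ z₀ ξ : ℂ,
      ENNReal.ofReal (‖ξ‖ ^ 4) * ∫⁻ η, ‖((κ * 2 ^ a : ℝ) : ℂ)⁻¹ * θ ((ξ - η) / (κ * 2 ^ a : ℝ)) *
          𝓕 (fun z => φ ((z - z₀) / (r * 2 ^ (-a) : ℝ)) * gW n (Finset.Ico a (a + b)) f z) η‖ₑ ^ 2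
        ≤ ENNReal.ofReal (((1 + ε') * n / Real.pi) ^ 2)) := by
    intro b
    by_cases hb : 1 ≤ b
    · obtain ⟨κ, r, h1, h2, h3, _, n0, h4⟩ :=
        Helper72.BA.Linf_general b hb φ hφ ρ₀ hφs θ hθs hθ1 ε' hε'
      exact ⟨κ, r, n0, h1, by linarith, fun _ => h4⟩
    · exact ⟨1, 1, 0, one_pos, one_pos, fun h => absurd h hb⟩
  choose κ r n0 hκ hr hL using H
  refine ⟨(Finset.range (B + 1)).sup n0, fun n hn N a b hab f hf => ?_⟩
  classical
  set I : Finset ℕ := (Finset.range N).filter (fun l => a l < b l) with hI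
  set W : ℕ → Finset ℤ := fun l => Finset.Ico (a l) (b l) with hWdef
  set bl : ℕ → ℕ := fun l => (b l - a l).toNat with hbl
  have hD : (0:ℝ) ≤ (1 + ε') * n / Real.pi := by positivity
  have hbl1 : ∀ l, b l = a l + bl l := by
    intro l
    have := (hab l).1
    simp only [hbl]
    omega
  have hblB : ∀ l, bl l ≤ B := by
    intro l
    have := (hab l).2.1
    simp only [hbl]
    omega
  have hblpos : ∀ l ∈ I, 1 ≤ bl l := by
    intro l hl
    have h2 : a l < b l := (Finset.mem_filter.1 hl).2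
    simp only [hbl]
    omega
  have hn0 : ∀ l, n0 (bl l) ≤ n := by
    intro l
    refine le_trans ?_ hn
    exact Finset.le_sup (f := n0) (Finset.mem_range.2 (Nat.lt_succ_of_le (hblB l)))
  have hdisj : ∀ i ∈ I, ∀ j ∈ I, i ≠ j → Disjoint (W i) (W j) := by
    have h3 : ∀ i j, i < j → Disjoint (W i) (W j) := by
      intro i j hij
      obtain ⟨d, rfl⟩ : ∃ d, j = i + 1 + d := ⟨j - (i + 1), by omega⟩
      have h4 := Helper72.BA.P.mono_ab (fun l => (hab l).1) (fun l => (hab l).2.2) i d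
      rw [Finset.disjoint_left]
      intro x hx hx'
      simp only [hWdef, Finset.mem_Ico] at hx hx'
      omega
    intro i _ j _ hij
    rcases lt_or_gt_of_ne hij with h | h
    · exact h3 i j h
    · exact (h3 j i h).symm
  have core := R13_core hp hP φ θ hφ hφ2t hθs hθ1 n I W hdisj
    (fun l => κ (bl l) * 2 ^ (a l)) (fun l => r (bl l) * 2 ^ (-(a l)))
    (fun l => by have := hκ (bl l); positivity) (fun l => by have := hr (bl l); positivity)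
    ((1 + ε') * n / Real.pi) hD
    (by
      intro l hl f hf hf1 z₀ ξ
      have h5 := hL (bl l) (hblpos l hl) n (hn0 l) (a l) f hf hf1 z₀ ξ
      rw [← hbl1 l] at h5
      exact h5)
    hf
  -- the sum over the nonempty windows
  have hsum : ∑ l ∈ Finset.range N, nrp p (gW n (Finset.Ico (a l) (b l)) f)
      = ∑ l ∈ I, nrp p (gW n (W l) f) := by
    rw [hI, Finset.sum_filter]
    refine Finset.sum_congr rfl fun l _ => ?_
    split_ifs with h
    · rfl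
    · have h6 : Finset.Ico (a l) (b l) = ∅ := Finset.Ico_eq_empty (by omega)
      rw [h6, Helper72.BA.P.gW_empty, R13_nrp_zero p hp0]
  rw [hsum]
  set Sg := ∑ l ∈ I, nrp p (gW n (W l) f) with hSg
  set D : ℝ := (1 + ε') * n / Real.pi with hDdef
  have step : nrp p φ * Sg ≤ nrp p φ *
      (ENNReal.ofReal ((1 + ε) * A ^ p * (n:ℝ) ^ (p - 2)) * nrp p f) := by
    calc nrp p φ * Sg ≤ ENNReal.ofReal (Real.pi ^ (p - 2) * A ^ p) *
        (nrm 2 φ * ENNReal.ofReal (D ^ (p - 2)) * nrp p f) := core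
      _ ≤ ENNReal.ofReal (Real.pi ^ (p - 2) * A ^ p) *
        ((ENNReal.ofReal (1 + ε') * nrp p φ) * ENNReal.ofReal (D ^ (p - 2)) * nrp p f) := by
          gcongr
      _ = nrp p φ * ((ENNReal.ofReal (Real.pi ^ (p - 2) * A ^ p) *
          ENNReal.ofReal (1 + ε') * ENNReal.ofReal (D ^ (p - 2))) * nrp p f) := by ring
      _ ≤ _ := by
          gcongr
          rw [← ENNReal.ofReal_mul (by positivity), ← ENNReal.ofReal_mul (by positivity)]
          apply ENNReal.ofReal_le_ofReal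
          have e3 : Real.pi ^ (p - 2) * A ^ p * (1 + ε') * D ^ (p - 2)
              = (1 + ε') ^ (p - 1) * A ^ p * (n:ℝ) ^ (p - 2) := by
            rw [hDdef, Real.div_rpow (by positivity) (by positivity),
              Real.mul_rpow (by positivity) (by positivity)]
            have e4 : p - 1 = (p - 2) + 1 := by ring
            rw [e4, Real.rpow_add (by positivity), Real.rpow_one]
            have : Real.pi ^ (p - 2) ≠ 0 := by positivity
            field_simp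
          rw [e3]
          gcongr
  exact (ENNReal.mul_le_mul_iff_right hφ0' hφt').1 step

end Helper85.BP.P
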